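import Pool.Agent.BLP.StmtsK

/-!
# Squad BLP, row K_SPX (helper13): the canonical space satisfies all requirements
-/

set_option autoImplicit false

namespace Pool.Agent.BLP.H13

open MeasureTheory ProbabilityTheory Filter Topology Finset
open scoped ENNReal

noncomputable section

theorem k_spx : SpxStmt := by
  intro bxe ncm zer guq mpr bxt lin Ω _ P B hB
  obtain ⟨f, hfd⟩ : ∃ f : Ω → XX, f = fun ω (i : ℤ × ℚ) => B ω i.1 i.2 := ⟨_, rfl⟩
  obtain ⟨hf, hT1, hT2, hT3⟩ := mpr guq Ω P B hB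
  have hz := zer bxe Ω P B hB
  obtain ⟨hl1, hl2, hl3⟩ := lin Ω P B hB
  rw [← hfd] at hf hT1 hT2 hT3 ⊢
  have hz2 : ∀ᵐ ω ∂P, BX (f ω) = B ω := by
    filter_upwards [hz] with ω hω
    rw [hfd]
    exact hω.2.2.2
  have hnice : ∀ᵐ x ∂P.map f, Nice x := by
    refine (ae_map_iff hf ncm.1).2 ?_
    filter_upwards [hz] with ω hω
    rw [hfd]
    exact hω.2.2.1
  have hP : IsProbabilityMeasure P := hB.gauss.isProbabilityMeasure
  have hμ : ∀ E : Set XX, MeasurableSet E → (P.map f) E = P (f ⁻¹' E) := fun E hE =>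
    Measure.map_apply_of_aemeasurable hf hE
  refine
    { prob := Measure.isProbabilityMeasure_map hf
      cts := fun x => (bxe.1 x).1
      zero := fun x => (bxe.1 x).2
      mea := ncm.2
      tr := fun a => ⟨_, hT1 a, hnice.mono fun x hx => (bxt bxe x hx).1 a⟩
      lv := fun k => ⟨_, hT2 k, hnice.mono fun x hx => (bxt bxe x hx).2.1 k⟩
      sc := fun l hl => ⟨_, hT3 l hl, hnice.mono fun x hx => (bxt bxe x hx).2.2 l hl⟩
      law := ?_
      ind := ?_
      inc := ?_ }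
  · intro r s t hst
    have hm : Measurable fun x : XX => BX x r t - BX x r s := (ncm.2 r t).sub (ncm.2 r s)
    rw [AEMeasurable.map_map_of_aemeasurable hm.aemeasurable hf, ← hl1 r s t hst]
    refine Measure.map_congr ?_
    filter_upwards [hz2] with ω hω
    change BX (f ω) r t - BX (f ω) r s = B ω r t - B ω r s
    rw [hω]
  · have hm : ∀ r : ℤ, Measurable fun (x : XX) (q : ℚ) => BX x r q := fun r =>
      measurable_pi_iff.2 fun q => ncm.2 r q
    rw [iIndepFun_iff_measure_inter_preimage_eq_mul] at hl2 ⊢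
    intro S sets hsets
    have h1 : ∀ r ∈ S, (P.map f) ((fun (x : XX) (q : ℚ) => BX x r q) ⁻¹' sets r) =
        P ((fun (ω : Ω) (q : ℚ) => B ω r q) ⁻¹' sets r) := by
      intro r hr
      rw [hμ _ (hm r (hsets r hr))]
      refine measure_congr ?_
      filter_upwards [hz2] with ω hω
      change ((fun q : ℚ => BX (f ω) r q) ∈ sets r) = ((fun q : ℚ => B ω r q) ∈ sets r)
      rw [hω]
    have h2 : (P.map f) (⋂ r ∈ S, (fun (x : XX) (q : ℚ) => BX x r q) ⁻¹' sets r) =
        P (⋂ r ∈ S, (fun (ω : Ω) (q : ℚ) => B ω r q) ⁻¹' sets r) := by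
      rw [hμ _ (Finset.measurableSet_biInter S fun r hr => hm r (hsets r hr))]
      refine measure_congr ?_
      filter_upwards [hz2] with ω hω
      have h3 : (ω ∈ f ⁻¹' ⋂ r ∈ S, (fun (x : XX) (q : ℚ) => BX x r q) ⁻¹' sets r) ↔
          (ω ∈ ⋂ r ∈ S, (fun (ω : Ω) (q : ℚ) => B ω r q) ⁻¹' sets r) := by
        rw [Set.mem_preimage, Set.mem_iInter₂, Set.mem_iInter₂]
        refine forall₂_congr fun r _ => ?_
        rw [Set.mem_preimage, Set.mem_preimage, hω]
      exact propext h3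
    rw [h2, hl2 S hsets]
    exact (Finset.prod_congr rfl h1).symm
  · intro r s
    have h3 := hl3 r s
    have hm1 : Measurable fun (x : XX) (t : {t : ℝ // t ≤ s}) => BX x r t - BX x r s :=
      measurable_pi_iff.2 fun t => (ncm.2 r t).sub (ncm.2 r s)
    have hm2 : Measurable fun (x : XX) (t : {t : ℝ // s ≤ t}) => BX x r t - BX x r s :=
      measurable_pi_iff.2 fun t => (ncm.2 r t).sub (ncm.2 r s)
    rw [indepFun_iff_measure_inter_preimage_eq_mul] at h3 ⊢
    intro E E' hE hE'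
    have h4 := h3 E E' hE hE'
    rw [hμ _ ((hm1 hE).inter (hm2 hE')), hμ _ (hm1 hE), hμ _ (hm2 hE')]
    have e1 : P (f ⁻¹' ((fun (x : XX) (t : {t : ℝ // t ≤ s}) => BX x r t - BX x r s) ⁻¹' E)) =
        P ((fun (ω : Ω) (t : {t : ℝ // t ≤ s}) => B ω r t - B ω r s) ⁻¹' E) := by
      refine measure_congr ?_
      filter_upwards [hz2] with ω hω
      change ((fun t : {t : ℝ // t ≤ s} => BX (f ω) r t - BX (f ω) r s) ∈ E) =
        ((fun t : {t : ℝ // t ≤ s} => B ω r t - B ω r s) ∈ E)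
      rw [hω]
    have e2 : P (f ⁻¹' ((fun (x : XX) (t : {t : ℝ // s ≤ t}) => BX x r t - BX x r s) ⁻¹' E')) =
        P ((fun (ω : Ω) (t : {t : ℝ // s ≤ t}) => B ω r t - B ω r s) ⁻¹' E') := by
      refine measure_congr ?_
      filter_upwards [hz2] with ω hω
      change ((fun t : {t : ℝ // s ≤ t} => BX (f ω) r t - BX (f ω) r s) ∈ E') =
        ((fun t : {t : ℝ // s ≤ t} => B ω r t - B ω r s) ∈ E')
      rw [hω]
    have e3 : P (f ⁻¹' ((fun (x : XX) (t : {t : ℝ // t ≤ s}) => BX x r t - BX x r s) ⁻¹' E ∩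
        (fun (x : XX) (t : {t : ℝ // s ≤ t}) => BX x r t - BX x r s) ⁻¹' E')) =
        P ((fun (ω : Ω) (t : {t : ℝ // t ≤ s}) => B ω r t - B ω r s) ⁻¹' E ∩
          (fun (ω : Ω) (t : {t : ℝ // s ≤ t}) => B ω r t - B ω r s) ⁻¹' E') := by
      refine measure_congr ?_
      filter_upwards [hz2] with ω hω
      change ((fun t : {t : ℝ // t ≤ s} => BX (f ω) r t - BX (f ω) r s) ∈ E ∧
        (fun t : {t : ℝ // s ≤ t} => BX (f ω) r t - BX (f ω) r s) ∈ E') =
        ((fun t : {t : ℝ // t ≤ s} => B ω r t - B ω r s) ∈ E ∧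
        (fun t : {t : ℝ // s ≤ t} => B ω r t - B ω r s) ∈ E')
      rw [hω]
    rw [e1, e2, e3, h4]

end

end Pool.Agent.BLP.H13
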