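import Pool.Agent.BLP.StmtsM

/-!
# Squad BLP, row M_CEL (helper13): the lattice path bound
-/

set_option autoImplicit false

namespace Pool.Agent.BLP.H13

open MeasureTheory ProbabilityTheory Filter Topology Finset
open scoped ENNReal

noncomputable section

theorem os_le {b : Env} (hb : Cts b) (r : ℤ) (j : ℕ) {u : ℝ} (h1 : (j : ℝ) ≤ u)
    (h2 : u ≤ j + 1) : |b r u - b r j| ≤ Os b r j := by
  unfold Os
  refine le_csSup ?_ ⟨u, ⟨h1, h2⟩, rfl⟩
  refine IsCompact.bddAbove_image isCompact_Icc ?_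
  exact (((hb r).sub continuous_const).abs).continuousOn

/-- the hypothesis is `ExiStmt` of block A (with `Pa` unfolded) -/
theorem m_cel (exi : ∀ b : Env, Cts b → ∀ (m n : ℤ) (s t : ℝ), m ≤ n → s ≤ t →
    ∃ τ : ℤ → ℝ, (τ (m - 1) = s ∧ τ n = t ∧ ∀ r, m ≤ r → r ≤ n → τ (r - 1) ≤ τ r) ∧
      En b τ m n = L b m s n t) : CelStmt := by
  intro b hb N hN
  obtain ⟨τ, ⟨hτ0, hτN, hτm⟩, hτE⟩ := exi b hb 0 ((N : ℤ) - 1) 0 N (by omega) (Nat.cast_nonneg N)
  -- the values are nonnegative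
  have hpos : ∀ r : ℕ, r ≤ N → 0 ≤ τ ((r : ℤ) - 1) := by
    intro r
    induction r with
    | zero => intro _; rw [Nat.cast_zero, hτ0]
    | succ r ih =>
      intro hr
      have h1 := hτm r (by omega) (by omega)
      have h2 : ((r + 1 : ℕ) : ℤ) - 1 = r := by push_cast; ring
      rw [h2]
      exact (ih (by omega)).trans h1
  obtain ⟨J, hJ⟩ : ∃ J : ℕ → ℕ, ∀ r, J r = ⌊τ ((r : ℤ) - 1)⌋₊ := ⟨_, fun _ => rfl⟩
  have hJ0 : J 0 = 0 := by rw [hJ, Nat.cast_zero, hτ0, Nat.floor_zero]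
  have hJN : J N = N := by rw [hJ, hτN, Nat.floor_natCast]
  have hJs : ∀ r < N, J r ≤ J (r + 1) := by
    intro r hr
    rw [hJ, hJ]
    refine Nat.floor_mono ?_
    have h2 : ((r + 1 : ℕ) : ℤ) - 1 = r := by push_cast; ring
    rw [h2]
    exact hτm r (by omega) (by omega)
  have hJ1 : ∀ r ≤ N, (J r : ℝ) ≤ τ ((r : ℤ) - 1) ∧ τ ((r : ℤ) - 1) ≤ J r + 1 := by
    intro r hr
    rw [hJ]
    exact ⟨Nat.floor_le (hpos r hr), (Nat.lt_floor_add_one _).le⟩
  have hsum : ∀ r ≤ N, ∑ i ∈ range r, (J (i + 1) - J i) = J r := by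
    intro r
    induction r with
    | zero => intro _; rw [Finset.sum_range_zero, hJ0]
    | succ r ih =>
      intro hr
      rw [Finset.sum_range_succ, ih (by omega)]
      have := hJs r (by omega)
      omega
  refine ⟨fun r => J (r + 1) - J r, ?_, ?_⟩
  · rw [hsum N le_rfl, hJN]
  · rw [← hτE]
    unfold En
    have h1 : ∑ r ∈ Finset.Icc (0 : ℤ) ((N : ℤ) - 1), (b r (τ r) - b r (τ (r - 1))) =
        ∑ r ∈ range N, (b (r : ℤ) (τ (r : ℤ)) - b (r : ℤ) (τ ((r : ℤ) - 1))) := by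
      refine Finset.sum_nbij' (fun r => r.toNat) (fun r => (r : ℤ)) ?_ ?_ ?_ ?_ ?_
      · intro r hr
        rw [Finset.mem_Icc] at hr
        rw [Finset.mem_range]
        omega
      · intro r hr
        rw [Finset.mem_range] at hr
        rw [Finset.mem_Icc]
        omega
      · intro r hr
        rw [Finset.mem_Icc] at hr
        exact Int.toNat_of_nonneg hr.1
      · intro r _
        exact Int.toNat_natCast r
      · intro r hr
        rw [Finset.mem_Icc] at hr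
        rw [Int.toNat_of_nonneg hr.1]
    rw [h1]
    refine Finset.sum_le_sum fun r hr => ?_
    rw [Finset.mem_range] at hr
    rw [hsum r hr.le, hsum (r + 1) hr]
    unfold Xc
    have h2 : ((r + 1 : ℕ) : ℤ) - 1 = r := by push_cast; ring
    obtain ⟨a1, a2⟩ := hJ1 r hr.le
    obtain ⟨a3, a4⟩ := hJ1 (r + 1) hr
    rw [h2] at a3 a4
    have e1 := abs_le.1 (os_le hb (r : ℤ) (J r) a1 a2)
    have e2 := abs_le.1 (os_le hb (r : ℤ) (J (r + 1)) a3 a4)
    linarith [e1.1, e2.2]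

end

end Pool.Agent.BLP.H13
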